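import Pool.Agent.TH957.WM.Coef

/-!
# A sharper exponential bound for partial fraction coefficients, with a free weight

The factor `2 ^ (b h n)` of the zeros in `Pool.Agent.TH957.WM.pfc_le` is replaced by
`((1 + 1/w)^h w^(2c))^(b n)`.
-/

open Polynomial Pool.Agent.H337R2

namespace Pool.Agent.Q203.SM

noncomputable section

set_option autoImplicit false

open Pool.Agent.TH957.WM

lemma AB_mono {c c' A A' : ℚ} {f : PowerSeries ℚ} (h : AB c A f) (hc : 0 ≤ c) (hcc : c ≤ c') (hA : 0 ≤ A)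
    (hAA : A ≤ A') : AB c' A' f := by
  intro j
  refine (h j).trans ?_
  exact mul_le_mul hAA (pow_le_pow_left₀ hc hcc j) (by positivity) (hA.trans hAA)

lemma AB_add {c A A' : ℚ} {f g : PowerSeries ℚ} (h : AB c A f) (h' : AB c A' g) : AB c (A + A') (f + g) := by
  intro j
  rw [map_add, add_mul]
  exact (abs_add_le _ _).trans (add_le_add (h j) (h' j))

/-- the bound of one binomial coefficient by the binomial theorem -/
lemma choose_weight (w : ℚ) (hw : 0 < w) (a b : ℕ) : ((a.choose b : ℕ) : ℚ) ≤ (1 + w⁻¹) ^ a * w ^ b := by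
  have hwi : 0 < w⁻¹ := inv_pos.2 hw
  by_cases hb : b ≤ a
  · have h1 : (1 + w⁻¹) ^ a = ∑ m ∈ Finset.range (a + 1), w⁻¹ ^ m * 1 ^ (a - m) * (a.choose m : ℕ) := by
      rw [← add_pow, add_comm]
    have h2 : w⁻¹ ^ b * (a.choose b : ℕ) ≤ (1 + w⁻¹) ^ a := by
      rw [h1]
      have h3 : w⁻¹ ^ b * (a.choose b : ℕ) = w⁻¹ ^ b * 1 ^ (a - b) * (a.choose b : ℕ) := by
        rw [one_pow, mul_one]
      rw [h3]
      exact Finset.single_le_sum (f := fun m => w⁻¹ ^ m * 1 ^ (a - m) * (a.choose m : ℕ))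
        (fun i _ => by positivity) (Finset.mem_range.2 (by omega))
    have h4 : w⁻¹ ^ b * w ^ b = 1 := by
      rw [← mul_pow, inv_mul_cancel₀ hw.ne', one_pow]
    calc ((a.choose b : ℕ) : ℚ) = (w⁻¹ ^ b * (a.choose b : ℕ)) * w ^ b := by
          rw [mul_right_comm, h4, one_mul]
      _ ≤ _ := mul_le_mul_of_nonneg_right h2 (by positivity)
  · rw [Nat.choose_eq_zero_of_lt (by omega)]
    positivity

/-- the base of the bound of the zeros -/
def GW (w : ℚ) (b h c : ℕ) : ℚ := ((1 + w⁻¹) ^ h * w ^ (2 * c)) ^ b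

lemma GW_pos {w : ℚ} (hw : 0 < w) (b h c : ℕ) : 0 < GW w b h c := by
  have hwi : 0 < w⁻¹ := inv_pos.2 hw
  unfold GW
  positivity

lemma zeros_le' (w : ℚ) (hw : 0 < w) (b h c n : ℕ) {k : ℕ} (hk : k ∈ ss h c n) :
    ∏ m ∈ Finset.Icc 1 (c * n), (|-(k : ℚ) + m| ^ b * |-(k : ℚ) + ((h : ℚ) * n - m)| ^ b) ≤
      ((c * n).factorial : ℚ) ^ (2 * b) * GW w b h c ^ n := by
  have hwi : 0 < w⁻¹ := inv_pos.2 hw
  rw [ss, Finset.mem_Icc] at hk
  have hkn : k ≤ h * n := by omega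
  have e1 : ∀ m ∈ Finset.Icc 1 (c * n), |-(k : ℚ) + m| ^ b * |-(k : ℚ) + ((h : ℚ) * n - m)| ^ b =
      (((k : ℚ) - m) * (((h * n - k : ℕ) : ℚ) - m)) ^ b := by
    intro m hm
    rw [Finset.mem_Icc] at hm
    have h3 : (m : ℚ) ≤ k := by exact_mod_cast (by omega : m ≤ k)
    have h4 : ((k + m : ℕ) : ℚ) ≤ ((h * n : ℕ) : ℚ) := by exact_mod_cast (by omega : k + m ≤ h * n)
    push_cast at h4
    rw [mul_pow, Nat.cast_sub hkn]
    push_cast
    congr 1
    · rw [show -(k : ℚ) + m = -((k : ℚ) - m) by ring, abs_neg, abs_of_nonneg (by linarith)]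
    · rw [show -(k : ℚ) + ((h : ℚ) * n - m) = (h : ℚ) * n - k - m by ring, abs_of_nonneg (by linarith)]
  rw [Finset.prod_congr rfl e1, Finset.prod_pow, Finset.prod_mul_distrib,
    prod_dist k (c * n) (by omega), prod_dist (h * n - k) (c * n) (by omega)]
  have h5 : (((k - 1).choose (c * n) : ℕ) : ℚ) ≤ (1 + w⁻¹) ^ k * w ^ (c * n) := by
    refine (choose_weight w hw (k - 1) (c * n)).trans ?_
    apply mul_le_mul_of_nonneg_right _ (by positivity)
    exact pow_le_pow_right₀ (by linarith) (by omega)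
  have h6 : (((h * n - k - 1).choose (c * n) : ℕ) : ℚ) ≤ (1 + w⁻¹) ^ (h * n - k) * w ^ (c * n) := by
    refine (choose_weight w hw (h * n - k - 1) (c * n)).trans ?_
    apply mul_le_mul_of_nonneg_right _ (by positivity)
    exact pow_le_pow_right₀ (by linarith) (by omega)
  have h7 : (0 : ℚ) ≤ ((c * n).factorial : ℚ) := by positivity
  calc (((c * n).factorial : ℚ) * ((k - 1).choose (c * n) : ℚ) *
        (((c * n).factorial : ℚ) * ((h * n - k - 1).choose (c * n) : ℚ))) ^ b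
      ≤ (((c * n).factorial : ℚ) * ((1 + w⁻¹) ^ k * w ^ (c * n)) *
        (((c * n).factorial : ℚ) * ((1 + w⁻¹) ^ (h * n - k) * w ^ (c * n)))) ^ b := by
        gcongr
    _ = _ := by
        have e2 : (1 + w⁻¹) ^ k * (1 + w⁻¹) ^ (h * n - k) = ((1 + w⁻¹) ^ h) ^ n := by
          rw [← pow_add, ← pow_mul]
          congr 1
          omega
        have e3 : w ^ (c * n) * w ^ (c * n) = (w ^ (2 * c)) ^ n := by
          rw [← pow_add, ← pow_mul]
          congr 1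
          ring
        rw [show ((c * n).factorial : ℚ) * ((1 + w⁻¹) ^ k * w ^ (c * n)) *
          (((c * n).factorial : ℚ) * ((1 + w⁻¹) ^ (h * n - k) * w ^ (c * n))) =
          ((c * n).factorial : ℚ) ^ 2 * (((1 + w⁻¹) ^ k * (1 + w⁻¹) ^ (h * n - k)) *
            (w ^ (c * n) * w ^ (c * n))) by ring, e2, e3, ← mul_pow, mul_pow, ← pow_mul,
          ← pow_mul]
        unfold GW
        rw [← pow_mul]
        congr 2
        ring

/-- the basic factor of all coefficients -/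
theorem base_AB' (w : ℚ) (hw : 0 < w) (b h c n : ℕ) (ds : List ℕ) (hn : 1 ≤ n)
    (hc : ∀ d ∈ ds, c < d) (h2 : ∀ d ∈ ds, 2 * d < h) {k : ℕ} (hk : k ∈ ss h c n) :
    AB (1 + 2 * b * (c * n) + ∑ m ∈ ss h c n, mu h n ds m : ℚ)
      ((GW w b h c * 2 ^ (ds.map fun d => h - 2 * d).sum) ^ n * (h * n + 2))
      (TS (-(k : ℚ)) (PP b h c n ds) * VV ((ss h c n).erase k) (mu h n ds) (-(k : ℚ))) := by
  intro j
  have hk' := hk
  rw [ss, Finset.mem_Icc] at hk'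
  have hkn : (k : ℚ) ≤ (h : ℚ) * n := by exact_mod_cast (by omega : k ≤ h * n)
  have hk0 : (0 : ℚ) ≤ k := by positivity
  unfold PP NN VV
  rw [(TS (-(k : ℚ))).map_mul, (TS (-(k : ℚ))).map_mul, TS_C, TS_lin2, map_prod]
  have hB2 : (2 : ℚ) ≤ (h : ℚ) * n + 2 := by
    have : (0 : ℚ) ≤ (h : ℚ) * n := by positivity
    linarith
  have e1 : AB 0 (cst b h c n ds) (PowerSeries.C (cst b h c n ds)) :=
    AB.C (by rw [abs_of_nonneg (cst_nonneg _ _ _ _ _)])
  have e2 : AB 1 ((h : ℚ) * n + 2) (PowerSeries.C 2 * PowerSeries.X + PowerSeries.C (2 * (-(k : ℚ)) + (h : ℚ) * n)) := by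
    apply AB_lin2 hB2
    rw [abs_le]
    constructor <;> linarith
  have e3 : AB (∑ x ∈ Finset.Icc 1 (c * n), ((b : ℚ) * 1 + b * 1))
      (∏ m ∈ Finset.Icc 1 (c * n), (|-(k : ℚ) + m| ^ b * |-(k : ℚ) + ((h : ℚ) * n - m)| ^ b))
      (∏ x ∈ Finset.Icc 1 (c * n), (TS (-(k : ℚ))) ((X + C (x : ℚ)) ^ b * (X + C ((h : ℚ) * n - x)) ^ b)) := by
    apply AB.prod
    · intro i _; positivity
    · intro m _; positivity
    · intro m hm
      rw [Finset.mem_Icc] at hm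
      rw [map_mul, map_pow, map_pow, TS_lin, TS_lin]
      have h3 : (1 : ℚ) ≤ |-(k : ℚ) + m| := abs_ge_one (by omega)
      have h4 : (1 : ℚ) ≤ |-(k : ℚ) + ((h : ℚ) * n - m)| := by
        refine le_trans ?_ (le_abs_self _)
        have : ((k + m + 1 : ℕ) : ℚ) ≤ ((h * n : ℕ) : ℚ) := by exact_mod_cast (by omega : k + m + 1 ≤ h * n)
        push_cast at this
        linarith
      apply AB.mul (by positivity) (by positivity) (by positivity) (by positivity)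
      · exact AB.pow zero_le_one (by positivity) (AB_linX h3) b
      · exact AB.pow zero_le_one (by positivity) (AB_linX h4) b
  have e4 : AB (∑ m ∈ (ss h c n).erase k, ((mu h n ds m : ℚ) * 1))
      (∏ m ∈ (ss h c n).erase k, (|-(k : ℚ) + m|⁻¹) ^ mu h n ds m)
      (∏ m ∈ (ss h c n).erase k, iv (-(k : ℚ) + m) ^ mu h n ds m) := by
    apply AB.prod
    · intro i _; positivity
    · intro i _; positivity
    · intro m hm
      rw [Finset.mem_erase] at hm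
      exact AB.pow zero_le_one (by positivity) (AB_iv (abs_ge_one hm.1)) _
  have hc0 := cst_nonneg b h c n ds
  have e5 := AB.mul (by positivity) (by positivity) (by positivity) (by positivity)
    (AB.mul (by positivity) (by positivity) (by positivity) (by positivity)
      (AB.mul le_rfl zero_le_one hc0 (by positivity) e1 e2) e3) e4
  have e6 := e5 j
  refine e6.trans ?_
  have a1 := zeros_le' w hw b h c n hk
  have a2 := poles_le h c n ds hn hc h2 hk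
  have a3 : (0 + 1 + ∑ x ∈ Finset.Icc 1 (c * n), ((b : ℚ) * 1 + b * 1) +
      ∑ m ∈ (ss h c n).erase k, ((mu h n ds m : ℚ) * 1)) ≤
      (1 + 2 * b * (c * n) + ∑ m ∈ ss h c n, mu h n ds m : ℚ) := by
    have : ∑ m ∈ (ss h c n).erase k, ((mu h n ds m : ℚ) * 1) ≤ ∑ m ∈ ss h c n, (mu h n ds m : ℚ) := by
      simp only [mul_one]
      exact Finset.sum_le_sum_of_subset_of_nonneg (Finset.erase_subset _ _) fun _ _ _ => by positivity
    rw [Finset.sum_const, Nat.card_Icc]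
    simp only [nsmul_eq_mul, Nat.add_sub_cancel]
    push_cast
    linarith
  have a30 : 0 ≤ (0 + 1 + ∑ x ∈ Finset.Icc 1 (c * n), ((b : ℚ) * 1 + b * 1) +
      ∑ m ∈ (ss h c n).erase k, ((mu h n ds m : ℚ) * 1)) := by positivity
  have hG : 0 < GW w b h c := GW_pos hw b h c
  apply mul_le_mul _ (pow_le_pow_left₀ a30 a3 j) (by positivity) (by positivity)
  have hF : (0 : ℚ) < ((c * n).factorial : ℚ) ^ (2 * b) := by positivity
  have a4 : cst b h c n ds * ((h : ℚ) * n + 2) *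
      (∏ m ∈ Finset.Icc 1 (c * n), (|-(k : ℚ) + m| ^ b * |-(k : ℚ) + ((h : ℚ) * n - m)| ^ b)) *
      (∏ m ∈ (ss h c n).erase k, (|-(k : ℚ) + m|⁻¹) ^ mu h n ds m) =
      (h * n + 2) * (((∏ m ∈ Finset.Icc 1 (c * n), (|-(k : ℚ) + m| ^ b * |-(k : ℚ) + ((h : ℚ) * n - m)| ^ b)) /
        ((c * n).factorial : ℚ) ^ (2 * b)) * ((ds.map fun d => (Nat.factorial ((h - 2 * d) * n) : ℚ)).prod *
        ∏ m ∈ (ss h c n).erase k, (|-(k : ℚ) + m|⁻¹) ^ mu h n ds m)) := by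
    unfold cst
    field_simp
  rw [a4]
  have a5 : (∏ m ∈ Finset.Icc 1 (c * n), (|-(k : ℚ) + m| ^ b * |-(k : ℚ) + ((h : ℚ) * n - m)| ^ b)) /
        ((c * n).factorial : ℚ) ^ (2 * b) ≤ GW w b h c ^ n := by
    rw [div_le_iff₀ hF, mul_comm (GW w b h c ^ n)]
    exact a1
  have a6 : 0 ≤ (ds.map fun d => (Nat.factorial ((h - 2 * d) * n) : ℚ)).prod *
        ∏ m ∈ (ss h c n).erase k, (|-(k : ℚ) + m|⁻¹) ^ mu h n ds m := by
    apply mul_nonneg
    · apply List.prod_nonneg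
      intro x hx
      rw [List.mem_map] at hx
      obtain ⟨d', _, rfl⟩ := hx
      positivity
    · positivity
  calc _ ≤ ((h : ℚ) * n + 2) * (GW w b h c ^ n * 2 ^ ((ds.map fun d => h - 2 * d).sum * n)) := by
        apply mul_le_mul_of_nonneg_left _ (by linarith)
        exact mul_le_mul a5 a2 a6 (by positivity)
    _ = _ := by
        rw [mul_pow, ← pow_mul 2 _ n]
        ring

/-- the coefficients when the numerator is multiplied by a polynomial -/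
theorem pa_mul_le' (w : ℚ) (hw : 0 < w) (b h c n : ℕ) (ds : List ℕ) (hn : 1 ≤ n)
    (hc : ∀ d ∈ ds, c < d) (h2 : ∀ d ∈ ds, 2 * d < h) {k : ℕ} (hk : k ∈ ss h c n) (E : ℚ[X]) (cE BE : ℚ)
    (hcE : 0 ≤ cE) (hBE : 0 ≤ BE) (hE : AB cE BE (TS (-(k : ℚ)) E)) (i : ℕ) :
    |pa (ss h c n) (mu h n ds) (PP b h c n ds * E) k i| ≤
      (GW w b h c * 2 ^ (ds.map fun d => h - 2 * d).sum) ^ n * (h * n + 2) * BE *
        (1 + 2 * b * (c * n) + ∑ m ∈ ss h c n, mu h n ds m + cE : ℚ) ^ ds.length := by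
  have hG : 0 < GW w b h c := GW_pos hw b h c
  have h1 : (1 : ℚ) ≤ 1 + 2 * b * (c * n) + ∑ m ∈ ss h c n, mu h n ds m + cE := by
    have : (0 : ℚ) ≤ 2 * b * (c * n) + ∑ m ∈ ss h c n, (mu h n ds m : ℚ) := by positivity
    push_cast at this ⊢
    linarith
  unfold pa
  split_ifs with hi
  · unfold pfc
    rw [(TS (-(k : ℚ))).map_mul]
    have e : TS (-(k : ℚ)) (PP b h c n ds) * TS (-(k : ℚ)) E * VV ((ss h c n).erase k) (mu h n ds) (-(k : ℚ)) =
        (TS (-(k : ℚ)) (PP b h c n ds) * VV ((ss h c n).erase k) (mu h n ds) (-(k : ℚ))) * TS (-(k : ℚ)) E := by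
      ring
    rw [e]
    have h3 := AB.mul (by positivity) hcE (by positivity) hBE (base_AB' w hw b h c n ds hn hc h2 hk) hE
    refine (h3 _).trans ?_
    apply mul_le_mul_of_nonneg_left _ (by positivity)
    push_cast
    push_cast at h1
    apply pow_le_pow_right₀ h1
    have := mu_le_length h n ds k
    omega
  · rw [abs_zero]
    positivity

/-- the size of the unit -/
def nu (n : ℕ) : ℚ := ((n : ℚ) / 24) ^ 2

lemma nu_nonneg (n : ℕ) : 0 ≤ nu n := by unfold nu; positivity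

/-- monic polynomials in `x = t (t + h n)` whose local expansions are bounded by `A ν ^ deg` -/
def SA (h n k : ℕ) (Q : ℚ[X]) (A : ℚ) : Prop :=
  Q.Monic ∧ 0 ≤ A ∧ AB (Q.natDegree : ℚ) (A * nu n ^ Q.natDegree)
    (TS (-(k : ℚ)) (Q.comp (X * (X + C ((h * n : ℕ) : ℚ)))))

section

variable {h n k : ℕ}

lemma SA.one (h n k : ℕ) : SA h n k 1 1 := by
  refine ⟨monic_one, zero_le_one, ?_⟩
  rw [natDegree_one, one_comp, map_one, pow_zero, Nat.cast_zero, mul_one]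
  exact AB.one

lemma SA.mul {P Q : ℚ[X]} {A B : ℚ} (hP : SA h n k P A) (hQ : SA h n k Q B) : SA h n k (P * Q) (A * B) := by
  have h0 := nu_nonneg n
  have hA := hP.2.1
  have hB := hQ.2.1
  refine ⟨hP.1.mul hQ.1, mul_nonneg hA hB, ?_⟩
  rw [hP.1.natDegree_mul hQ.1, mul_comp, map_mul, pow_add]
  push_cast
  have e : A * B * (nu n ^ P.natDegree * nu n ^ Q.natDegree) =
    (A * nu n ^ P.natDegree) * (B * nu n ^ Q.natDegree) := by ring
  rw [e]
  have h1 := hP.2.2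
  have h2 := hQ.2.2
  push_cast at h1 h2
  exact AB.mul (by positivity) (by positivity) (by positivity) (by positivity) h1 h2

lemma SA.pow {P : ℚ[X]} {A : ℚ} (hP : SA h n k P A) (e : ℕ) : SA h n k (P ^ e) (A ^ e) := by
  induction e with
  | zero => rw [pow_zero, pow_zero]; exact SA.one h n k
  | succ e ih => rw [pow_succ, pow_succ]; exact ih.mul hP

lemma SA.prod {ι : Type} (s : Finset ι) (f : ι → ℚ[X]) (A : ι → ℚ) (hs : ∀ i ∈ s, SA h n k (f i) (A i)) :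
    SA h n k (∏ i ∈ s, f i) (∏ i ∈ s, A i) := by
  classical
  induction s using Finset.induction_on with
  | empty => rw [Finset.prod_empty, Finset.prod_empty]; exact SA.one h n k
  | insert a s ha ih =>
    rw [Finset.prod_insert ha, Finset.prod_insert ha]
    exact (hs a (Finset.mem_insert_self _ _)).mul (ih fun i hi => hs i (Finset.mem_insert_of_mem hi))

lemma SA.mono {P : ℚ[X]} {A B : ℚ} (hP : SA h n k P A) (hAB : A ≤ B) : SA h n k P B := by
  have h0 := nu_nonneg n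
  have hA := hP.2.1
  refine ⟨hP.1, hA.trans hAB, ?_⟩
  exact AB_mono hP.2.2 (by positivity) le_rfl (by positivity) (mul_le_mul_of_nonneg_right hAB (by positivity))

lemma TS_xp (h n k : ℕ) : TS (-(k : ℚ)) (X * (X + C ((h * n : ℕ) : ℚ))) =
    PowerSeries.X ^ 2 + PowerSeries.C ((h : ℚ) * (n : ℚ) - 2 * k) * PowerSeries.X +
      PowerSeries.C (-(k * ((h : ℚ) * (n : ℚ) - k))) := by
  rw [map_mul, TS_X, TS_lin]
  have e : PowerSeries.C ((h : ℚ) * (n : ℚ) - 2 * k) =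
      PowerSeries.C (-(k : ℚ)) + PowerSeries.C (-(k : ℚ) + ((h * n : ℕ) : ℚ)) := by
    rw [← map_add]
    congr 1
    push_cast
    ring
  have e2 : PowerSeries.C (-(k * ((h : ℚ) * (n : ℚ) - k))) =
      PowerSeries.C (-(k : ℚ)) * PowerSeries.C (-(k : ℚ) + ((h * n : ℕ) : ℚ)) := by
    rw [← map_mul]
    congr 1
    push_cast
    ring
  rw [e, e2]
  ring

lemma AB_quad {A β γ : ℚ} (h1 : 1 ≤ A) (hβ : |β| ≤ A) (hγ : |γ| ≤ A) :
    AB 1 A (PowerSeries.X ^ 2 + PowerSeries.C β * PowerSeries.X + PowerSeries.C γ) := by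
  intro j
  rw [one_pow, mul_one, map_add, map_add, PowerSeries.coeff_C_mul, PowerSeries.coeff_X_pow, PowerSeries.coeff_C,
    PowerSeries.coeff_X]
  rcases j with _ | _ | _ | j
  · simpa using hγ
  · simpa using hβ
  · simpa using h1
  · simp only [Nat.add_eq_zero_iff, one_ne_zero, and_false, if_false]
    rw [if_neg (by omega), if_neg (by omega)]
    simp
    linarith

/-- linear factors in `x` -/
lemma AB_lin (hn : 1 ≤ n) (hk : k ≤ h * n) {α A : ℚ} (hA : (h : ℚ) * n ≤ A) (hA1 : 1 ≤ A)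
    (hα1 : α ≤ A - (h : ℚ) ^ 2 / 4 * n ^ 2) (hα2 : -A ≤ α) :
    AB 1 A (TS (-(k : ℚ)) ((X - C α).comp (X * (X + C ((h * n : ℕ) : ℚ))))) := by
  have hk1 : (k : ℚ) ≤ (h : ℚ) * n := by exact_mod_cast hk
  have hk0 : (0 : ℚ) ≤ k := by positivity
  have hx0 : 0 ≤ (k : ℚ) * ((h : ℚ) * n - k) := mul_nonneg hk0 (by linarith)
  have hx1 : (k : ℚ) * ((h : ℚ) * n - k) ≤ (h : ℚ) ^ 2 / 4 * n ^ 2 := by
    nlinarith [sq_nonneg ((k : ℚ) - (h : ℚ) / 2 * n)]
  have e : TS (-(k : ℚ)) ((X - C α).comp (X * (X + C ((h * n : ℕ) : ℚ)))) = PowerSeries.X ^ 2 +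
      PowerSeries.C ((h : ℚ) * (n : ℚ) - 2 * k) * PowerSeries.X +
      PowerSeries.C (-(k * ((h : ℚ) * (n : ℚ) - k)) - α) := by
    rw [sub_comp, X_comp, C_comp, (TS (-(k : ℚ))).map_sub, TS_C, TS_xp, map_sub PowerSeries.C _ α]
    ring
  rw [e]
  apply AB_quad hA1
  · rw [abs_le]
    constructor <;> linarith
  · rw [abs_le]
    constructor <;> linarith

lemma nu_mul (h n : ℕ) : (12 * (h : ℚ)) ^ 2 * nu n = (h : ℚ) ^ 2 / 4 * (n : ℚ) ^ 2 := by unfold nu; ring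

lemma sq_bounds (h4 : 4 ≤ h) (hn : 1 ≤ n) : (h : ℚ) * n ≤ (h : ℚ) ^ 2 / 4 * (n : ℚ) ^ 2 ∧
    1 ≤ (h : ℚ) ^ 2 / 4 * (n : ℚ) ^ 2 := by
  have h1 : (4 : ℚ) ≤ h := by exact_mod_cast h4
  have h2 : (1 : ℚ) ≤ n := by exact_mod_cast hn
  have h3 : (4 : ℚ) ≤ (h : ℚ) * n := by nlinarith
  have e : (h : ℚ) ^ 2 / 4 * (n : ℚ) ^ 2 = ((h : ℚ) * n) * ((h : ℚ) * n) / 4 := by ring
  rw [e]
  constructor <;> nlinarith

lemma SA_lin (h4 : 4 ≤ h) (hn : 1 ≤ n) (hk : k ≤ h * n) {α A : ℚ} (hA : (12 * (h : ℚ)) ^ 2 ≤ A)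
    (hα1 : α ≤ (A - (12 * (h : ℚ)) ^ 2) * nu n) (hα2 : 0 ≤ α) : SA h n k (X - C α) A := by
  obtain ⟨s1, s2⟩ := sq_bounds h4 hn
  refine ⟨monic_X_sub_C α, le_trans (by positivity) hA, ?_⟩
  rw [natDegree_X_sub_C, Nat.cast_one, pow_one]
  have h0 := nu_nonneg n
  have h1 := nu_mul h n
  have h2 : (12 * (h : ℚ)) ^ 2 * nu n ≤ A * nu n := mul_le_mul_of_nonneg_right hA h0
  apply AB_lin hn hk
  · linarith
  · linarith
  · linarith
  · linarith

lemma SA_X (h4 : 4 ≤ h) (hn : 1 ≤ n) (hk : k ≤ h * n) : SA h n k X ((12 * (h : ℚ)) ^ 2) := by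
  have := SA_lin (α := 0) (A := (12 * (h : ℚ)) ^ 2) h4 hn hk le_rfl (by simp) le_rfl
  rwa [C_0, sub_zero] at this

/-- the bound of an atom -/
def Mab (h : ℕ) (a b : ℚ) : ℚ := ((12 * (h : ℚ)) ^ 2 + 1 + a * (a + 24 * h) - b ^ 2) ^ 2 + (b * (2 * a + 24 * h)) ^ 2

/-- the atom -/
def qaH (h : ℕ) (N : ℕ) (a b : ℚ) : ℚ[X] :=
  (X - C (((N : ℚ) * a - 1 / 2) * ((N : ℚ) * a - 1 / 2 + h * (24 * (N : ℚ) + 1)) - ((N : ℚ) * b) ^ 2)) ^ 2 +
    C (((N : ℚ) * b * (2 * ((N : ℚ) * a - 1 / 2) + h * (24 * (N : ℚ) + 1))) ^ 2)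

lemma SA_qa (h4 : 4 ≤ h) (h20 : h ≤ 20) {N : ℕ} (hN : 4000 ≤ N) (hn : n = 24 * N + 1) (hk : k ≤ h * n) {a b : ℚ}
    (ha : 1 / 2 ≤ a) (hb : 0 ≤ b) (hb2 : b ≤ 200) (hab : b ^ 2 ≤ a * (a + 24 * h) - 1)
    (hmon : (qaH h N a b).Monic) (hdeg : (qaH h N a b).natDegree = 2) :
    SA h n k (qaH h N a b) (Mab h a b) := by
  have hn1 : 1 ≤ n := by omega
  have hnq : (n : ℚ) = 24 * N + 1 := by rw [hn]; push_cast; ring
  have hN1 : (4000 : ℚ) ≤ N := by exact_mod_cast hN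
  have hn0 : (0 : ℚ) < n := by rw [hnq]; linarith
  have hM0 : 0 ≤ Mab h a b := by unfold Mab; positivity
  have hh4 : (4 : ℚ) ≤ h := by exact_mod_cast h4
  have hh20 : (h : ℚ) ≤ 20 := by exact_mod_cast h20
  refine ⟨hmon, hM0, ?_⟩
  rw [hdeg]
  set α : ℚ := ((N : ℚ) * a - 1 / 2) * ((N : ℚ) * a - 1 / 2 + h * (24 * (N : ℚ) + 1)) - ((N : ℚ) * b) ^ 2 with hα
  set β : ℚ := ((N : ℚ) * b * (2 * ((N : ℚ) * a - 1 / 2) + h * (24 * (N : ℚ) + 1))) with hβ
  have e0 : qaH h N a b = (X - C α) ^ 2 + C (β ^ 2) := by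
    unfold qaH
    rw [hα, hβ]
  have hx : (n : ℚ) / 24 = N + 1 / 24 := by rw [hnq]; ring
  set ν := nu n with hν
  have hνe : ν = (N + 1 / 24 : ℚ) ^ 2 := by rw [hν]; unfold nu; rw [hx]
  have hν0 : 0 ≤ ν := nu_nonneg n
  have hb2' : b ^ 2 ≤ 200 ^ 2 := pow_le_pow_left₀ hb hb2 2
  have hNN : 4000 * (N : ℚ) ≤ N ^ 2 := by
    have : (N : ℚ) ^ 2 = N * N := by ring
    rw [this]
    exact mul_le_mul_of_nonneg_right hN1 (by linarith)
  have hNa : (N : ℚ) * (1 / 2) ≤ N * a := mul_le_mul_of_nonneg_left ha (by linarith)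
  have hhN : 0 ≤ (h : ℚ) * (24 * (N : ℚ) + 1) := by positivity
  -- upper bound for α
  have hα1 : α ≤ (a * (a + 24 * h) - b ^ 2 + 1) * ν := by
    have h1 : ((N : ℚ) * a - 1 / 2) * ((N : ℚ) * a - 1 / 2 + h * (24 * (N : ℚ) + 1)) ≤
        ((N + 1 / 24) * a) * ((N + 1 / 24) * (a + 24 * h)) := by
      apply mul_le_mul
      · linarith
      · linarith
      · linarith
      · positivity
    have h2 : b ^ 2 * ν - ν ≤ ((N : ℚ) * b) ^ 2 := by
      have h3 : b ^ 2 * (2 * (N : ℚ) * (1 / 24) + (1 / 24) ^ 2) ≤ ν := by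
        rw [hνe]
        have h4 : b ^ 2 * (2 * (N : ℚ) * (1 / 24) + (1 / 24) ^ 2) ≤ 200 ^ 2 * (2 * (N : ℚ) * (1 / 24) + (1 / 24) ^ 2) :=
          mul_le_mul_of_nonneg_right hb2' (by positivity)
        refine h4.trans ?_
        have h7 : (N + 1 / 24 : ℚ) ^ 2 = N ^ 2 + N / 12 + 1 / 576 := by ring
        rw [h7]
        linarith
      have h5 : b ^ 2 * ν = ((N : ℚ) * b) ^ 2 + b ^ 2 * (2 * (N : ℚ) * (1 / 24) + (1 / 24) ^ 2) := by
        rw [hνe]; ring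
      linarith
    have h6 : ((N + 1 / 24 : ℚ) * a) * ((N + 1 / 24) * (a + 24 * h)) = a * (a + 24 * h) * ν := by rw [hνe]; ring
    rw [hα]
    linarith
  have hα2 : 0 ≤ α := by
    have h1 : ((N : ℚ) * a - 1 / 2) * ((N : ℚ) * a - 1 / 2 + h * (24 * (N : ℚ) + 1)) - ((N : ℚ) * b) ^ 2 =
        (N : ℚ) ^ 2 * (a * (a + 24 * h) - b ^ 2) + (N : ℚ) * ((h - 1) * a - 12 * h) + (1 / 4 - h / 2) := by ring
    have h2 : (N : ℚ) ^ 2 * 1 ≤ (N : ℚ) ^ 2 * (a * (a + 24 * h) - b ^ 2) := by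
      apply mul_le_mul_of_nonneg_left _ (by positivity)
      linarith
    have h3 : (N : ℚ) * (-240) ≤ (N : ℚ) * ((h - 1) * a - 12 * h) := by
      apply mul_le_mul_of_nonneg_left _ (by positivity)
      have : 0 ≤ ((h : ℚ) - 1) * a := mul_nonneg (by linarith) (by linarith)
      linarith
    rw [hα, h1]
    linarith
  have hβ0 : 0 ≤ β := by
    rw [hβ]
    apply mul_nonneg (by positivity)
    linarith
  have hβ1 : β ≤ (b * (2 * a + 24 * h)) * ν := by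
    have h1 : (N : ℚ) * b * (2 * ((N : ℚ) * a - 1 / 2) + h * (24 * (N : ℚ) + 1)) ≤
        ((N + 1 / 24) * b) * ((N + 1 / 24) * (2 * a + 24 * h)) := by
      apply mul_le_mul
      · linarith
      · linarith
      · linarith
      · positivity
    have h6 : ((N + 1 / 24 : ℚ) * b) * ((N + 1 / 24) * (2 * a + 24 * h)) = (b * (2 * a + 24 * h)) * ν := by
      rw [hνe]; ring
    rw [hβ]
    linarith
  rw [e0, add_comp, pow_comp, C_comp, map_add, map_pow, TS_C]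
  have h46 := nu_mul h n
  rw [← hν] at h46
  obtain ⟨s1, s2⟩ := sq_bounds h4 hn1
  set B : ℚ := ((12 * (h : ℚ)) ^ 2 + 1 + a * (a + 24 * h) - b ^ 2) * ν with hB
  have hpos1 : 0 ≤ (1 + a * (a + 24 * h) - b ^ 2) * ν := mul_nonneg (by linarith) hν0
  have hBe : B = (h : ℚ) ^ 2 / 4 * (n : ℚ) ^ 2 + (1 + a * (a + 24 * h) - b ^ 2) * ν := by
    rw [← h46, hB]; ring
  have hB0 : 0 ≤ B := by
    rw [hBe]
    positivity
  have h1 : AB 1 B (TS (-(k : ℚ)) ((X - C α).comp (X * (X + C ((h * n : ℕ) : ℚ))))) := by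
    apply AB_lin hn1 hk
    · linarith
    · linarith
    · rw [hBe]
      have : (h : ℚ) ^ 2 / 4 * (n : ℚ) ^ 2 + (1 + a * (a + 24 * h) - b ^ 2) * ν - (h : ℚ) ^ 2 / 4 * (n : ℚ) ^ 2 =
        (a * (a + 24 * h) - b ^ 2 + 1) * ν := by ring
      rw [this]
      exact hα1
    · linarith
  have h2 := AB.pow zero_le_one hB0 h1 2
  have h3 : AB 0 (β ^ 2) (PowerSeries.C (β ^ 2)) := AB.C (by rw [abs_of_nonneg (sq_nonneg β)])
  have h4 : AB (((2 : ℕ) : ℚ)) (B ^ 2)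
      (TS (-(k : ℚ)) ((X - C α).comp (X * (X + C ((h * n : ℕ) : ℚ)))) ^ 2) := by
    have := h2
    rwa [mul_one] at this
  have h5 : AB (((2 : ℕ) : ℚ)) (β ^ 2) (PowerSeries.C (β ^ 2)) :=
    AB_mono h3 le_rfl (by norm_num) (sq_nonneg _) le_rfl
  refine AB_mono (AB_add h4 h5) (by norm_num) le_rfl (by positivity) ?_
  have h6 : β ^ 2 ≤ ((b * (2 * a + 24 * h)) * ν) ^ 2 := pow_le_pow_left₀ hβ0 hβ1 2
  have h7 : B ^ 2 + ((b * (2 * a + 24 * h)) * ν) ^ 2 = Mab h a b * ν ^ 2 := by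
    rw [hB]; unfold Mab; ring
  linarith

end

end

end Pool.Agent.Q203.SM
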