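import Pool.Agent.Q203.ZM.Sel

/-!
# Selection of a prime in a residue class whose `m`-th power does not divide a given number, second form

The selected prime may be much smaller than the end of the range; only the primes up to `r n` are removed.
-/

open Filter Topology ArithmeticFunction Pool.Agent.TH957.WM

namespace Pool.Agent.Q203.SM

open Pool.Agent.Q203.ZM

noncomputable section

set_option autoImplicit false

theorem select2 (κ : ℕ) (hκ : 1 ≤ κ) (a : ZMod κ) (ha : IsUnit a) (m : ℕ) (α β c r θ ε : ℝ)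
    (hα : 0 < α) (hc : 0 < c) (hr : 1 < r) (hε : 0 < ε) (hθ : 0 < θ) (hθc : θ ≤ c)
    (h0 : α * m / κ.totient ≤ β) (h1 : α < (β + α * m * ((r - 1) / κ.totient - 3 * ε * r)) * θ)
    (h2 : 1 < m * ((c - θ) / κ.totient - 2 * ε * c)) (n0 : ℕ) :
    ∀ᶠ q : ℕ in atTop, ∃ (n q' : ℕ) (B : Finset ℕ), n.Prime ∧ (n : ZMod κ) = a ∧ n0 ≤ n ∧
      (n : ℝ) ≤ c * Real.log q ∧ ¬ n ^ m ∣ q ∧ (∀ p ∈ B, p.Prime ∧ n < p ∧ (p : ℝ) < r * n) ∧
      q = q' * ∏ p ∈ B, p ^ m ∧ α * Real.log q' ≤ β * n := by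
  classical
  set φ : ℝ := (κ.totient : ℝ) with hφd
  have hφ : 0 < φ := by rw [hφd]; exact_mod_cast Nat.totient_pos.2 hκ
  have hr0 : 0 < r := by linarith
  have hT := thc_tendsto κ hκ a ha
  rw [Metric.tendsto_atTop] at hT
  obtain ⟨y0, hy0⟩ := hT ε hε
  have hTl : ∀ y : ℕ, y0 ≤ y → 1 ≤ y → (1 / φ - ε) * y ≤ thc κ a y ∧ thc κ a y ≤ (1 / φ + ε) * y := by
    intro y hy hy1
    have h := hy0 y hy
    rw [Real.dist_eq, abs_lt] at h
    have hy0 : (0 : ℝ) < y := by exact_mod_cast hy1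
    rw [inv_eq_one_div] at h
    constructor
    · have h3 : (1 / φ - ε) < thc κ a y / y := by linarith [h.1]
      rw [lt_div_iff₀ hy0] at h3
      exact h3.le
    · have h3 : thc κ a y / y < 1 / φ + ε := by linarith [h.2]
      rw [div_lt_iff₀ hy0] at h3
      exact h3.le
  -- positivity of the relevant constants
  have hm0 : (0 : ℝ) ≤ m := by positivity
  have hmpos : (0 : ℝ) < m := by
    rcases hm0.lt_or_eq with h | h
    · exact h
    · rw [← h, zero_mul] at h2; linarith
  have hE : 0 < (c - θ) / φ - 2 * ε * c := by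
    by_contra hneg
    push Not at hneg
    have := mul_nonpos_of_nonneg_of_nonpos hm0 hneg
    linarith
  have hcd : 0 < 1 / φ - 2 * ε := by
    have h3 : (c - θ) / φ ≤ c * (1 / φ) := by
      rw [sub_div, mul_one_div]
      have : 0 < θ / φ := by positivity
      linarith
    have h4 : 0 < c * (1 / φ - 2 * ε) := by
      have : c * (1 / φ - 2 * ε) = c * (1 / φ) - 2 * ε * c := by ring
      rw [this]; linarith
    exact (pos_iff_pos_of_mul_pos h4).1 hc
  have tL : Tendsto (fun q : ℕ => Real.log (q : ℝ)) atTop atTop :=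
    Real.tendsto_log_atTop.comp tendsto_natCast_atTop_atTop
  set δ : ℝ := m * ((c - θ) / φ - 2 * ε * c) - 1 with hδ
  have s1 : 0 < δ := by rw [hδ]; linarith
  set γ : ℝ := (β + α * m * ((r - 1) / φ - 3 * ε * r)) with hγ
  have s2 : 0 < γ * θ - α := by linarith
  have ev1 := (tL.const_mul_atTop s1).eventually_gt_atTop (m * (1 / φ + ε))
  have ev2 := (tL.const_mul_atTop s2).eventually_ge_atTop (γ + α * m)
  have ev3 := (tL.const_mul_atTop hθ).eventually_ge_atTop ((y0 : ℝ) + n0 + 3)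
  have ev4 := (tL.const_mul_atTop hθ).eventually_ge_atTop (1 / (ε * r) + 3)
  filter_upwards [ev1, ev2, ev3, ev4, eventually_ge_atTop 1] with q g1 g2 g3 g4 hq
  have hq0 : 0 < q := hq
  set L := Real.log (q : ℝ) with hL
  have hL0 : 0 ≤ L := Real.log_natCast_nonneg q
  set Y : ℕ := ⌊c * L⌋₊ with hY
  set y1 : ℕ := ⌊θ * L⌋₊ with hy1
  have hcL : 0 ≤ c * L := by positivity
  have hθL : 0 ≤ θ * L := by positivity
  have hY1 : (Y : ℝ) ≤ c * L := Nat.floor_le hcL
  have hY2 : c * L - 1 < Y := by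
    have := Nat.lt_floor_add_one (c * L)
    linarith
  have hy1a : (y1 : ℝ) ≤ θ * L := Nat.floor_le hθL
  have hy1b : θ * L - 1 < y1 := by
    have := Nat.lt_floor_add_one (θ * L)
    linarith
  have hn0' : (0 : ℝ) ≤ n0 := by positivity
  have hy0' : (0 : ℝ) ≤ y0 := by positivity
  have hy1c : y0 ≤ y1 := by
    have : (y0 : ℝ) ≤ y1 := by linarith
    exact_mod_cast this
  have hy1d : 1 ≤ y1 := by
    have : (1 : ℝ) ≤ y1 := by linarith
    exact_mod_cast this
  have hy1e : y1 ≤ Y := by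
    apply Nat.floor_le_floor
    exact mul_le_mul_of_nonneg_right hθc hL0
  have hYy0 : y0 ≤ Y := hy1c.trans hy1e
  have hY1' : 1 ≤ Y := hy1d.trans hy1e
  have hTY := hTl Y hYy0 hY1'
  have hT1 := hTl y1 hy1c hy1d
  -- the good primes
  set G := (clsP κ a Y).filter (fun p => ¬ p ^ m ∣ q) with hG
  have hex : ∃ p ∈ G, y1 < p := by
    by_contra hcon
    push Not at hcon
    have hdiff := thc_diff κ a y1 Y hy1e
    have hdv : ∏ p ∈ (clsP κ a Y).filter (fun p => y1 < p), p ^ m ∣ q := by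
      apply prod_pow_dvd
      · intro p hp
        rw [Finset.mem_filter, mem_clsP] at hp
        exact hp.1.2.1
      · intro p hp
        rw [Finset.mem_filter] at hp
        by_contra hnd
        have h3 := hcon p (by rw [hG, Finset.mem_filter]; exact ⟨hp.1, hnd⟩)
        omega
    have hle := Nat.le_of_dvd hq0 hdv
    have hpos : 0 < ∏ p ∈ (clsP κ a Y).filter (fun p => y1 < p), p ^ m := by
      apply Finset.prod_pos
      intro p hp
      rw [Finset.mem_filter, mem_clsP] at hp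
      exact pow_pos hp.1.2.1.pos _
    have hlog : Real.log ((∏ p ∈ (clsP κ a Y).filter (fun p => y1 < p), p ^ m : ℕ) : ℝ) ≤ L := by
      apply Real.log_le_log (by exact_mod_cast hpos)
      exact_mod_cast hle
    rw [log_prod_pow m _ (fun p hp => by rw [Finset.mem_filter, mem_clsP] at hp; exact hp.1.2.1)] at hlog
    have hS : (1 / φ - ε) * (c * L - 1) - (1 / φ + ε) * (θ * L) ≤
        ∑ p ∈ (clsP κ a Y).filter (fun p => y1 < p), Real.log (p : ℝ) := by
      have h3 : (1 / φ + ε) * (y1 : ℝ) ≤ (1 / φ + ε) * (θ * L) := mul_le_mul_of_nonneg_left hy1a (by positivity)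
      have h4 : (1 / φ - ε) * (c * L - 1) ≤ (1 / φ - ε) * Y := mul_le_mul_of_nonneg_left hY2.le (by linarith)
      linarith [hTY.1, hT1.2]
    have hS2 : ((c - θ) / φ - 2 * ε * c) * L - (1 / φ + ε) ≤ (1 / φ - ε) * (c * L - 1) - (1 / φ + ε) * (θ * L) := by
      have h3 : (1 / φ - ε) * (c * L - 1) - (1 / φ + ε) * (θ * L) =
          ((c - θ) / φ) * L - ε * (c * L) - ε * (θ * L) - 1 / φ + ε := by
        field_simp
        ring
      have h4 : ε * (θ * L) ≤ ε * (c * L) :=
        mul_le_mul_of_nonneg_left (mul_le_mul_of_nonneg_right hθc hL0) hε.le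
      rw [h3]
      linarith
    have h5 : (m : ℝ) * (((c - θ) / φ - 2 * ε * c) * L - (1 / φ + ε)) ≤ L :=
      (mul_le_mul_of_nonneg_left (hS2.trans hS) hm0).trans hlog
    have h6 : (m : ℝ) * (((c - θ) / φ - 2 * ε * c) * L - (1 / φ + ε)) = (δ + 1) * L - m * (1 / φ + ε) := by
      rw [hδ]; ring
    rw [h6] at h5
    linarith
  obtain ⟨p1, hp1G, hp1r⟩ := hex
  have hGne : G.Nonempty := ⟨p1, hp1G⟩
  set n := G.max' hGne with hn
  have hnG : n ∈ G := Finset.max'_mem _ _
  have hnp1 : p1 ≤ n := Finset.le_max' _ _ hp1G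
  have hny1 : y1 < n := hp1r.trans_le hnp1
  have hnG' := hnG
  rw [hG, Finset.mem_filter, mem_clsP] at hnG'
  obtain ⟨⟨⟨hn1, hnY⟩, hnp, hna⟩, hnd⟩ := hnG'
  have hnY' : (n : ℝ) ≤ Y := by exact_mod_cast hnY
  have hny1' : (y1 : ℝ) + 1 ≤ n := by exact_mod_cast hny1
  have hnθ : θ * L ≤ n := by linarith
  have hny0 : y0 ≤ n := by omega
  have hnn0 : n0 ≤ n := by
    have : (n0 : ℝ) ≤ n := by linarith
    exact_mod_cast this
  have hTn := hTl n hny0 hn1
  have hn0r : (0 : ℝ) < n := by exact_mod_cast hn1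
  -- the end of the removed range
  set R : ℕ := ⌈r * n⌉₊ - 1 with hR
  have hrn1 : 1 < r * n := by
    have : (1 : ℝ) ≤ n := by exact_mod_cast hn1
    nlinarith
  have hRc : 1 ≤ ⌈r * n⌉₊ := Nat.one_le_ceil_iff.2 (by linarith)
  have hR1 : ((R : ℕ) : ℝ) < r * n := by
    have h3 : (R : ℕ) < ⌈r * (n : ℝ)⌉₊ := by omega
    exact Nat.lt_ceil.1 h3
  have hR2 : r * n - 1 ≤ R := by
    have h3 := Nat.le_ceil (r * (n : ℝ))
    have h4 : ((R : ℕ) : ℝ) = (⌈r * (n : ℝ)⌉₊ : ℝ) - 1 := by
      rw [hR, Nat.cast_sub hRc, Nat.cast_one]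
    linarith
  set Z : ℕ := min Y R with hZ
  have hRn : n ≤ R := by
    have h3 : n < ⌈r * (n : ℝ)⌉₊ := by
      rw [Nat.lt_ceil]
      nlinarith
    omega
  have hnZ : n ≤ Z := le_min hnY hRn
  have hZY : Z ≤ Y := min_le_left _ _
  have hTZ := hTl Z (hny0.trans hnZ) (hn1.trans hnZ)
  set B := (clsP κ a Z).filter (fun p => n < p) with hB
  have hBp : ∀ p ∈ B, p.Prime := by
    intro p hp
    rw [hB, Finset.mem_filter, mem_clsP] at hp
    exact hp.1.2.1
  have hBd : ∏ p ∈ B, p ^ m ∣ q := by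
    apply prod_pow_dvd m q B hBp
    intro p hp
    rw [hB, Finset.mem_filter, mem_clsP] at hp
    by_contra h3
    have h4 : p ∈ G := by
      rw [hG, Finset.mem_filter, mem_clsP]
      exact ⟨⟨⟨hp.1.1.1, hp.1.1.2.trans hZY⟩, hp.1.2⟩, h3⟩
    have h5 := Finset.le_max' _ _ h4
    rw [← hn] at h5
    omega
  obtain ⟨q', hq'⟩ := hBd
  have hq'0 : 0 < q' := by
    rcases Nat.eq_zero_or_pos q' with h | h
    · rw [h, mul_zero] at hq'; omega
    · exact h
  refine ⟨n, q', B, hnp, hna, hnn0, hnY'.trans hY1, hnd, ?_, by rw [hq', mul_comm], ?_⟩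
  · intro p hp
    refine ⟨hBp p hp, ?_, ?_⟩
    · rw [hB, Finset.mem_filter] at hp
      exact hp.2
    · rw [hB, Finset.mem_filter, mem_clsP] at hp
      have h3 : p ≤ R := hp.1.1.2.trans (min_le_right _ _)
      have : (p : ℝ) ≤ R := by exact_mod_cast h3
      linarith
  · have hPpos : 0 < ∏ p ∈ B, p ^ m := Finset.prod_pos fun p hp => pow_pos (hBp p hp).pos _
    have hlogq : L = m * ∑ p ∈ B, Real.log (p : ℝ) + Real.log q' := by
      have h3 : (q : ℝ) = ((∏ p ∈ B, p ^ m : ℕ) : ℝ) * (q' : ℝ) := by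
        rw [hq']
        push_cast
        rfl
      rw [hL, h3, Real.log_mul (by exact_mod_cast hPpos.ne') (by exact_mod_cast hq'0.ne'), log_prod_pow m B hBp]
    have hdiff := thc_diff κ a n Z hnZ
    have hnZ' : (n : ℝ) ≤ Z := by exact_mod_cast hnZ
    have hS : (1 / φ - ε) * Z - (1 / φ + ε) * n ≤ ∑ p ∈ B, Real.log (p : ℝ) := by
      rw [hB]
      linarith [hTZ.1, hTn.2]
    have hS2 : (Z - n) / φ - 2 * ε * Z ≤ (1 / φ - ε) * Z - (1 / φ + ε) * n := by
      have h3 : (1 / φ - ε) * Z - (1 / φ + ε) * n = (Z - n) / φ - ε * Z - ε * n := by ring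
      have h4 : ε * (n : ℝ) ≤ ε * Z := mul_le_mul_of_nonneg_left hnZ' hε.le
      rw [h3]
      linarith
    have h5 : (m : ℝ) * ((Z - n) / φ - 2 * ε * Z) ≤ m * ∑ p ∈ B, Real.log (p : ℝ) :=
      mul_le_mul_of_nonneg_left (hS2.trans hS) hm0
    have h6 : Real.log (q' : ℝ) ≤ L - m * ((Z - n) / φ - 2 * ε * Z) := by linarith
    have h7 := mul_le_mul_of_nonneg_left h6 hα.le
    have hα1 : 0 ≤ α * m := by positivity
    rcases le_total Y R with hc1 | hc1
    · -- all the primes up to `Y` are removed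
      have hZe : (Z : ℝ) = Y := by rw [hZ, min_eq_left hc1]
      rw [hZe] at h7
      -- `L ≤ m Y (1/φ - 2 ε)`
      have h8 : L ≤ m * ((1 / φ - 2 * ε) * Y) := by
        have h9 : (1 / φ - 2 * ε) * (c * L - 1) ≤ (1 / φ - 2 * ε) * Y := mul_le_mul_of_nonneg_left hY2.le hcd.le
        have h10 := mul_le_mul_of_nonneg_left h9 hm0
        have h11 : (m : ℝ) * ((1 / φ - 2 * ε) * (c * L - 1)) =
            (δ + 1) * L + m * (θ / φ) * L - m * (1 / φ - 2 * ε) := by
          rw [hδ]
          field_simp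
          ring
        have h12 : 0 ≤ m * (θ / φ) * L := by positivity
        have h13 : (m : ℝ) * (1 / φ - 2 * ε) ≤ m * (1 / φ + ε) := by
          apply mul_le_mul_of_nonneg_left _ hm0
          linarith
        rw [h11] at h10
        linarith
      have h9 : α * (L - m * ((Y - n) / φ - 2 * ε * Y)) =
          α * (L - m * ((1 / φ - 2 * ε) * Y)) + α * m / φ * n := by
        field_simp
        ring
      rw [h9] at h7
      have h10 : α * (L - m * ((1 / φ - 2 * ε) * Y)) ≤ 0 := by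
        apply mul_nonpos_of_nonneg_of_nonpos hα.le
        linarith
      have h11 : α * m / φ * n ≤ β * n := mul_le_mul_of_nonneg_right h0 hn0r.le
      linarith
    · have hZe : (Z : ℝ) = R := by rw [hZ, min_eq_right hc1]
      rw [hZe] at h7
      have h8 : ((r - 1) * n - 1) / φ - 2 * ε * (r * n) ≤ (R - n) / φ - 2 * ε * R := by
        have h9 : ((r - 1) * n - 1) / φ ≤ (R - n) / φ := by
          apply div_le_div_of_nonneg_right _ hφ.le
          linarith
        have h10 : 2 * ε * (R : ℝ) ≤ 2 * ε * (r * n) := mul_le_mul_of_nonneg_left hR1.le (by positivity)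
        linarith
      have h9 := mul_le_mul_of_nonneg_left h8 hα1
      -- `n` is large
      have hnbig : 1 / (ε * r) ≤ n := by linarith
      have h10 : 1 ≤ ε * r * n := by
        rw [div_le_iff₀ (by positivity)] at hnbig
        linarith
      have h11 : γ * (θ * L) ≤ γ * n := by
        apply mul_le_mul_of_nonneg_left hnθ
        by_contra hneg
        push Not at hneg
        have := mul_nonpos_of_nonpos_of_nonneg hneg.le hθ.le
        linarith
      have hφ1 : 1 / φ ≤ 1 := by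
        rw [div_le_one hφ]
        have : 1 ≤ κ.totient := Nat.totient_pos.2 hκ
        rw [hφd]
        exact_mod_cast this
      have h12 : α * m * (((r - 1) * n - 1) / φ - 2 * ε * (r * n)) =
          α * m * ((r - 1) / φ - 3 * ε * r) * n + α * m * (ε * r * n) - α * m * (1 / φ) := by
        field_simp
        ring
      have h13 : γ * n = β * n + α * m * ((r - 1) / φ - 3 * ε * r) * n := by rw [hγ]; ring
      have h14 : α * m * (1 / φ) ≤ α * m * 1 := mul_le_mul_of_nonneg_left hφ1 hα1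
      have h15 : α * m * 1 ≤ α * m * (ε * r * n) := mul_le_mul_of_nonneg_left h10 hα1
      have h16 : γ * (θ * L) = (γ * θ - α) * L + α * L := by ring
      have hγα : 0 ≤ γ + α * m := by
        have : 0 < γ := by
          by_contra hneg
          push Not at hneg
          have := mul_nonpos_of_nonpos_of_nonneg hneg hθ.le
          linarith
        linarith
      have h17 : α * (L - m * ((R - n) / φ - 2 * ε * R)) = α * L - α * m * ((R - n) / φ - 2 * ε * R) := by ring
      rw [h17] at h7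
      linarith

end

end Pool.Agent.Q203.SM
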